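import Mathlib
import Pool.Agent.Helper679.CGDefs

set_option autoImplicit false

/-!
The clique game on the complete graph with vertex set `ℕ`: positions and strategies.
-/

namespace Pool.Agent.Y825.CG

open Finset Pool.Agent.Helper679.CliqueGame

/-- Maker (who is to move and owns `M`, while Breaker owns `B`) can reach a position with `goal`
within his next `m` moves. -/
inductive Win (goal : Finset (Sym2 ℕ) → Prop) : ℕ → Finset (Sym2 ℕ) → Finset (Sym2 ℕ) → Prop
  | done {m : ℕ} {M B : Finset (Sym2 ℕ)} (hg : goal M) : Win goal m M B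
  | move {m : ℕ} {M B : Finset (Sym2 ℕ)} (e : Sym2 ℕ) (he : ¬ e.IsDiag) (heM : e ∉ M) (heB : e ∉ B)
      (h : ∀ f : Sym2 ℕ, ¬ f.IsDiag → f ∉ M → f ∉ B → f ≠ e →
        Win goal m (insert e M) (insert f B)) : Win goal (m + 1) M B

lemma Win.succ {goal : Finset (Sym2 ℕ) → Prop} {m : ℕ} {M B : Finset (Sym2 ℕ)}
    (h : Win goal m M B) : Win goal (m + 1) M B := by
  induction h with
  | done hg => exact Win.done hg
  | move e he heM heB _ ih => exact Win.move e he heM heB ih

lemma Win.mono {goal : Finset (Sym2 ℕ) → Prop} {m n : ℕ} {M B : Finset (Sym2 ℕ)}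
    (h : Win goal m M B) (hmn : m ≤ n) : Win goal n M B := by
  induction n, hmn using Nat.le_induction with
  | base => exact h
  | succ n _ ih => exact ih.succ

/-- The edges of Maker and of Breaker in a history (last move first, an even number of moves). -/
def dec : List (Sym2 ℕ) → Finset (Sym2 ℕ) × Finset (Sym2 ℕ)
  | f :: e :: t => (insert e (dec t).1, insert f (dec t).2)
  | _ => (∅, ∅)

lemma exists_fresh (h : List (Sym2 ℕ)) : ∃ e : Sym2 ℕ, ¬ e.IsDiag ∧ e ∉ h := by
  have hinf : (Set.range (fun n : ℕ => s(0, n + 1))).Infinite := by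
    apply Set.infinite_range_of_injective
    intro a b hab
    have h1 : s(0, a + 1) = s(0, b + 1) := hab
    rw [Sym2.eq_iff] at h1
    omega
  obtain ⟨e, he, hne⟩ := hinf.exists_notMem_finset h.toFinset
  obtain ⟨n, rfl⟩ := he
  exact ⟨s(0, n + 1), by simp, by simpa using hne⟩

/-- The move `e` is good. -/
def Gd (goal : Finset (Sym2 ℕ) → Prop) (m : ℕ) (M B : Finset (Sym2 ℕ)) (e : Sym2 ℕ) : Prop :=
  ∀ f : Sym2 ℕ, ¬ f.IsDiag → f ∉ M → f ∉ B → f ≠ e → Win goal m (insert e M) (insert f B)

/-- From `Win` to a strategy in the sense of `CGDefs`. -/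
theorem exists_strategy {goal : Finset (Sym2 ℕ) → Prop}
    (hmono : ∀ M M' : Finset (Sym2 ℕ), M ⊆ M' → goal M → goal M') {m : ℕ}
    (hw : Win goal m ∅ ∅) :
    ∃ μ : Strategy, ∀ β : Strategy, ∃ M : Finset (Sym2 ℕ), goal M ∧ (M : Set (Sym2 ℕ)) =
      makerEdges μ β m := by
  classical
  have hex : ∀ h : List (Sym2 ℕ), ∃ e : Sym2 ℕ, ¬ e.IsDiag ∧ e ∉ h ∧
      ∀ k, (∃ e', ¬ e'.IsDiag ∧ e' ∉ h ∧ Gd goal k (dec h).1 (dec h).2 e') →
        Gd goal k (dec h).1 (dec h).2 e := by
    intro h
    by_cases hk : ∃ k, ∃ e', ¬ e'.IsDiag ∧ e' ∉ h ∧ Gd goal k (dec h).1 (dec h).2 e'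
    · obtain ⟨e', h1, h2, h3⟩ := Nat.find_spec hk
      refine ⟨e', h1, h2, fun k hk' => ?_⟩
      intro f a1 a2 a3 a4
      exact (h3 f a1 a2 a3 a4).mono (Nat.find_min' hk hk')
    · obtain ⟨e, h1, h2⟩ := exists_fresh h
      exact ⟨e, h1, h2, fun k hk' => absurd ⟨k, hk'⟩ hk⟩
  choose mv h1 h2 h3 using hex
  let μ : Strategy := ⟨mv, fun h => by
    show mv h ∈ (⊤ : SimpleGraph ℕ).edgeSet
    have := h1 h
    revert this
    generalize mv h = e
    induction e using Sym2.ind with
    | _ a b => intro h; simpa using h, h2⟩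
  refine ⟨μ, fun β => ?_⟩
  have hβ : ∀ h, ¬ (β.move h).IsDiag := by
    intro h
    have := β.mem_board h
    revert this
    generalize β.move h = e
    induction e using Sym2.ind with
    | _ a b => intro h; simpa [board] using h
  have hstep : ∀ n, dec (hist μ β (n + 1)) =
      (insert (mv (hist μ β n)) (dec (hist μ β n)).1,
        insert (β.move (mv (hist μ β n) :: hist μ β n)) (dec (hist μ β n)).2) := by
    intro n; rfl
  have hmem : ∀ n, ∀ e, e ∈ hist μ β n ↔ e ∈ (dec (hist μ β n)).1 ∨ e ∈ (dec (hist μ β n)).2 := by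
    intro n
    induction n with
    | zero => intro e; simp [hist, dec]
    | succ n ih =>
      intro e
      rw [hstep]
      have : hist μ β (n + 1) = β.move (mv (hist μ β n) :: hist μ β n) :: mv (hist μ β n) ::
        hist μ β n := rfl
      rw [this, List.mem_cons, List.mem_cons, ih]
      simp only [mem_insert]
      tauto
  have hM : ∀ n, ((dec (hist μ β n)).1 : Set (Sym2 ℕ)) = makerEdges μ β n := by
    intro n
    induction n with
    | zero => ext e; simp [hist, dec, makerEdges]
    | succ n ih =>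
      rw [hstep]
      ext e
      simp only [coe_insert, Set.mem_insert_iff, ih]
      constructor
      · rintro (rfl | ⟨i, hi, rfl⟩)
        · exact ⟨n, by omega, rfl⟩
        · exact ⟨i, by omega, rfl⟩
      · rintro ⟨i, hi, rfl⟩
        rcases Nat.lt_succ_iff_lt_or_eq.1 hi with h | rfl
        · exact Or.inr ⟨i, h, rfl⟩
        · exact Or.inl rfl
  have key : ∀ n, n ≤ m → Win goal (m - n) (dec (hist μ β n)).1 (dec (hist μ β n)).2 ∨
      goal (dec (hist μ β n)).1 := by
    intro n
    induction n with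
    | zero => intro _; left; simpa [hist, dec] using hw
    | succ n ih =>
      intro hn
      rw [hstep]
      rcases ih (by omega) with hwin | hg
      · obtain ⟨k, hk⟩ : ∃ k, m - n = k + 1 := ⟨m - n - 1, by omega⟩
        rw [hk] at hwin
        have hk' : m - (n + 1) = k := by omega
        rw [hk']
        cases hwin with
        | done hg => right; exact hmono _ _ (subset_insert _ _) hg
        | move e he heM heB hf =>
          left
          have hgd := h3 (hist μ β n) k ⟨e, he, by rw [hmem]; tauto, hf⟩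
          refine hgd _ (hβ _) ?_ ?_ ?_
          · intro hc
            exact β.not_mem _ (List.mem_cons_of_mem _ ((hmem n _).2 (Or.inl hc)))
          · intro hc
            exact β.not_mem _ (List.mem_cons_of_mem _ ((hmem n _).2 (Or.inr hc)))
          · intro hc
            refine β.not_mem (mv (hist μ β n) :: hist μ β n) ?_
            rw [hc]
            exact List.mem_cons_self
      · right; exact hmono _ _ (subset_insert _ _) hg
  refine ⟨(dec (hist μ β m)).1, ?_, hM m⟩
  rcases key m le_rfl with h | h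
  · rw [Nat.sub_self] at h
    cases h with
    | done hg => exact hg
  · exact h

/-- `M` contains a complete graph on `q` vertices. -/
def Cl (q : ℕ) (M : Finset (Sym2 ℕ)) : Prop :=
  ∃ S : Finset ℕ, S.card = q ∧ ∀ u ∈ S, ∀ v ∈ S, u ≠ v → s(u, v) ∈ M

theorem makerWins_of_win {q m : ℕ} (h : Win (Cl q) m ∅ ∅) : MakerWinsWithin q m := by
  obtain ⟨μ, hμ⟩ := exists_strategy (goal := Cl q) (by
    rintro M M' hMM ⟨S, h1, h2⟩
    exact ⟨S, h1, fun u hu v hv huv => hMM (h2 u hu v hv huv)⟩) h
  refine ⟨μ, fun β hc => ?_⟩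
  obtain ⟨M, ⟨S, hS, hM⟩, hME⟩ := hμ β
  refine hc S ?_
  rw [SimpleGraph.isNClique_iff, SimpleGraph.isClique_iff]
  refine ⟨?_, hS⟩
  intro u hu v hv huv
  unfold makerGraph
  rw [SimpleGraph.fromEdgeSet_adj]
  refine ⟨?_, huv⟩
  rw [← hME]
  exact_mod_cast hM u hu v hv huv

end Pool.Agent.Y825.CG
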