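import Mathlib
import Pool.Agent.Y825.CG.Win

set_option autoImplicit false

/-!
The hub phase.
-/

namespace Pool.Agent.Y825.CG

open Finset

/-- Indicator of `x y` being an edge of `B`. -/
def bb (B : Finset (Sym2 ℕ)) (x y : ℕ) : ℕ := if x ≠ y ∧ s(x, y) ∈ B then 1 else 0

lemma bb_comm (B : Finset (Sym2 ℕ)) (x y : ℕ) : bb B x y = bb B y x := by
  unfold bb; rw [Sym2.eq_swap]; simp only [ne_comm]

lemma bb_self (B : Finset (Sym2 ℕ)) (x : ℕ) : bb B x x = 0 := by simp [bb]

/-- Degree into `Y`. -/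
def dg (B : Finset (Sym2 ℕ)) (x : ℕ) (Y : Finset ℕ) : ℕ := ∑ y ∈ Y, bb B x y

/-- Ordered pairs between `X` and `Y` that are edges of `B`. -/
def EE (B : Finset (Sym2 ℕ)) (X Y : Finset ℕ) : ℕ := ∑ x ∈ X, dg B x Y

lemma dg_insert (B : Finset (Sym2 ℕ)) (x u : ℕ) (Y : Finset ℕ) (hu : u ∉ Y) :
    dg B x (insert u Y) = bb B x u + dg B x Y := by
  unfold dg; rw [sum_insert hu]

lemma EE_insert_left (B : Finset (Sym2 ℕ)) (u : ℕ) (X Y : Finset ℕ) (hu : u ∉ X) :
    EE B (insert u X) Y = dg B u Y + EE B X Y := by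
  unfold EE; rw [sum_insert hu]

lemma EE_comm (B : Finset (Sym2 ℕ)) (X Y : Finset ℕ) : EE B X Y = EE B Y X := by
  unfold EE dg
  rw [sum_comm]
  exact sum_congr rfl fun y _ => sum_congr rfl fun x _ => bb_comm B x y

lemma EE_insert_right (B : Finset (Sym2 ℕ)) (u : ℕ) (X Y : Finset ℕ) (hu : u ∉ Y) :
    EE B X (insert u Y) = dg B u X + EE B X Y := by
  rw [EE_comm, EE_insert_left B u Y X hu, EE_comm B Y X]

/-- The potential of the undecided vertices `T` and the selected vertices `S`. -/
def Ph (B : Finset (Sym2 ℕ)) (S T : Finset ℕ) : ℕ := 4 * EE B S S + 4 * EE B S T + EE B T T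

/-- Moving `u` from `T` to `S`. -/
lemma Ph_move (B : Finset (Sym2 ℕ)) (S T : Finset ℕ) (u : ℕ) (hS : u ∉ S) (hT : u ∉ T) :
    Ph B (insert u S) T = Ph B S (insert u T) + 2 * (2 * dg B u S + dg B u T) := by
  unfold Ph
  rw [EE_insert_left B u S (insert u S) hS, EE_insert_right B u S S hS, dg_insert B u u S hS,
    EE_insert_left B u S T hS, EE_insert_right B u S T hT, EE_insert_left B u T (insert u T) hT,
    EE_insert_right B u T T hT, dg_insert B u u T hT, bb_self]
  ring

/-- Discarding `u` from `T`. -/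
lemma Ph_discard (B : Finset (Sym2 ℕ)) (S T : Finset ℕ) (u : ℕ) (hT : u ∉ T) :
    Ph B S (insert u T) = Ph B S T + 2 * (2 * dg B u S + dg B u T) := by
  unfold Ph
  rw [EE_insert_right B u S T hT, EE_insert_left B u T (insert u T) hT,
    EE_insert_right B u T T hT, dg_insert B u u T hT, bb_self]
  ring

lemma bb_insert_le (B : Finset (Sym2 ℕ)) (f : Sym2 ℕ) (x y : ℕ) :
    bb (insert f B) x y ≤ bb B x y + if s(x, y) = f then 1 else 0 := by
  unfold bb
  by_cases h1 : x ≠ y ∧ s(x, y) ∈ B
  · rw [if_pos h1, if_pos ⟨h1.1, mem_insert_of_mem h1.2⟩]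
    omega
  · by_cases h2 : s(x, y) = f
    · rw [if_pos h2]
      split_ifs <;> omega
    · rw [if_neg h1, if_neg (by
        rintro ⟨h3, h4⟩
        rw [mem_insert] at h4
        rcases h4 with h4 | h4
        · exact h2 h4
        · exact h1 ⟨h3, h4⟩)]
      omega

/-- The number of ordered pairs in `X × Y` that are equal to `f`. -/
def cc (f : Sym2 ℕ) (X Y : Finset ℕ) : ℕ := ∑ x ∈ X, ∑ y ∈ Y, if s(x, y) = f then 1 else 0

lemma EE_insert_edge (B : Finset (Sym2 ℕ)) (f : Sym2 ℕ) (X Y : Finset ℕ) :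
    EE (insert f B) X Y ≤ EE B X Y + cc f X Y := by
  unfold EE dg cc
  rw [← sum_add_distrib]
  refine sum_le_sum fun x _ => ?_
  rw [← sum_add_distrib]
  exact sum_le_sum fun y _ => bb_insert_le B f x y

lemma cc_union_right (f : Sym2 ℕ) (X Y Y' : Finset ℕ) (h : Disjoint Y Y') :
    cc f X (Y ∪ Y') = cc f X Y + cc f X Y' := by
  unfold cc
  rw [← sum_add_distrib]
  exact sum_congr rfl fun x _ => sum_union h

lemma cc_union_left (f : Sym2 ℕ) (X X' Y : Finset ℕ) (h : Disjoint X X') :
    cc f (X ∪ X') Y = cc f X Y + cc f X' Y := by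
  unfold cc
  exact sum_union h

lemma cc_le_two (f : Sym2 ℕ) (X : Finset ℕ) : cc f X X ≤ 2 := by
  unfold cc
  rw [← sum_product', sum_boole, Nat.cast_id]
  induction f using Sym2.ind with
  | _ a b =>
    refine (card_le_card (t := {(a, b), (b, a)}) ?_).trans card_le_two
    intro p hp
    rw [mem_filter] at hp
    have h1 : s(p.1, p.2) = s(a, b) := hp.2
    rw [Sym2.eq_iff] at h1
    rw [mem_insert, mem_singleton]
    rcases h1 with ⟨h, h'⟩ | ⟨h, h'⟩
    · exact Or.inl (Prod.ext h h')
    · exact Or.inr (Prod.ext h h')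

lemma Ph_insert_edge (B : Finset (Sym2 ℕ)) (f : Sym2 ℕ) (S T : Finset ℕ) (h : Disjoint S T) :
    Ph (insert f B) S T ≤ Ph B S T + 8 := by
  have h1 := EE_insert_edge B f S S
  have h2 := EE_insert_edge B f S T
  have h3 := EE_insert_edge B f T T
  have h4 := cc_le_two f (S ∪ T)
  rw [cc_union_left f S T _ h, cc_union_right f S S T h, cc_union_right f T S T h] at h4
  unfold Ph
  omega

/-- Discarding a vertex of at least the degree of the moved one. -/
lemma round_pot (B : Finset (Sym2 ℕ)) (f : Sym2 ℕ) (S T : Finset ℕ) (u w : ℕ)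
    (hST : Disjoint S T) (hu : u ∈ T) (hw : w ∈ T.erase u)
    (hmin : 2 * dg B u S + dg B u T ≤ 2 * dg B w S + dg B w T) :
    Ph (insert f B) (insert u S) ((T.erase u).erase w) ≤ Ph B S T + 8 := by
  have huS : u ∉ S := disjoint_right.1 hST hu
  have hwT : w ∈ T := mem_of_mem_erase hw
  have hwu : w ≠ u := ne_of_mem_erase hw
  have hwS : w ∉ S := disjoint_right.1 hST hwT
  have hdis : Disjoint (insert u S) ((T.erase u).erase w) := by
    rw [disjoint_left]
    intro x hx hx'
    rw [mem_insert] at hx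
    rw [mem_erase, mem_erase] at hx'
    rcases hx with rfl | hx
    · exact hx'.2.1 rfl
    · exact disjoint_left.1 hST hx hx'.2.2
  refine (Ph_insert_edge B f _ _ hdis).trans ?_
  have e1 : insert w ((T.erase u).erase w) = T.erase u := insert_erase hw
  have e2 : insert u (T.erase u) = T := insert_erase hu
  have h1 := Ph_discard B (insert u S) ((T.erase u).erase w) w (notMem_erase _ _)
  rw [e1] at h1
  have h2 := Ph_move B S (T.erase u) u huS (notMem_erase _ _)
  rw [e2] at h2
  have h3 := dg_insert B w u S huS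
  have h4 : dg B w (T.erase u) = dg B w ((T.erase u).erase w) := by
    conv_lhs => rw [← e1]
    rw [dg_insert B w w _ (notMem_erase _ _), bb_self, zero_add]
  have h5 := dg_insert B w u (T.erase u) (notMem_erase _ _)
  rw [e2] at h5
  have h6 := dg_insert B u u (T.erase u) (notMem_erase _ _)
  rw [e2, bb_self] at h6
  omega

/-- One hub: `r` rounds at the vertex `v`. -/
theorem rounds {goal : Finset (Sym2 ℕ) → Prop} {m : ℕ} (v : ℕ) : ∀ (r : ℕ)
    (M B : Finset (Sym2 ℕ)) (S T : Finset ℕ) (c : ℕ),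
    v ∉ S → v ∉ T → Disjoint S T → 2 * r ≤ T.card → (∀ x ∈ S, s(v, x) ∈ M) →
    (∀ x ∈ T, s(v, x) ∉ M ∧ s(v, x) ∉ B) →
    (∀ x ∈ S ∪ T, ∀ y ∈ S ∪ T, x ≠ y → s(x, y) ∉ M) → Ph B S T ≤ c →
    (∀ (M' B' : Finset (Sym2 ℕ)) (S' : Finset ℕ), M ⊆ M' → S ⊆ S' → S' ⊆ S ∪ T →
      S'.card = S.card + r → (∀ x ∈ S', s(v, x) ∈ M') →
      (∀ x ∈ S', ∀ y ∈ S', x ≠ y → s(x, y) ∉ M') → 4 * EE B' S' S' ≤ c + 8 * r →
      Win goal m M' B') → Win goal (m + r) M B := by
  intro r
  induction r with
  | zero =>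
    intro M B S T c hvS hvT hST hcard hSM hT hMM hc hfin
    refine hfin M B S Subset.rfl Subset.rfl subset_union_left (by simp) hSM
      (fun x hx y hy => hMM x (mem_union_left _ hx) y (mem_union_left _ hy)) ?_
    unfold Ph at hc
    omega
  | succ r ih =>
    intro M B S T c hvS hvT hST hcard hSM hT hMM hc hfin
    have hTne : T.Nonempty := card_pos.1 (by omega)
    obtain ⟨u, huT, hmin⟩ := exists_min_image T (fun u => 2 * dg B u S + dg B u T) hTne
    have huS : u ∉ S := disjoint_right.1 hST huT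
    have hvu : v ≠ u := fun h => hvT (h ▸ huT)
    have hTe : (T.erase u).card = T.card - 1 := card_erase_of_mem huT
    rw [show m + (r + 1) = (m + r) + 1 by ring]
    refine Win.move s(v, u) (by simpa using hvu) (hT u huT).1 (hT u huT).2 ?_
    intro f hf1 hf2 hf3 hf4
    -- the discarded vertex
    obtain ⟨w, hw, hwf⟩ : ∃ w ∈ T.erase u, ∀ x ∈ T.erase u, s(v, x) = f → x = w := by
      by_cases hx : ∃ w ∈ T.erase u, s(v, w) = f
      · obtain ⟨w, hw, hwf⟩ := hx
        refine ⟨w, hw, fun x hx hxf => ?_⟩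
        have := hxf.trans hwf.symm
        rw [Sym2.eq_iff] at this
        rcases this with h | h
        · exact h.2
        · exact absurd (mem_of_mem_erase hw) (h.1 ▸ hvT)
      · push Not at hx
        obtain ⟨w, hw⟩ : (T.erase u).Nonempty := card_pos.1 (by omega)
        exact ⟨w, hw, fun x hx' hxf => absurd hxf (hx x hx')⟩
    have hwT : w ∈ T := mem_of_mem_erase hw
    have hpot := round_pot B f S T u w hST huT hw (hmin w hwT)
    refine ih (insert s(v, u) M) (insert f B) (insert u S) ((T.erase u).erase w) (c + 8)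
      ?_ ?_ ?_ ?_ ?_ ?_ ?_ (hpot.trans (by omega)) ?_
    · rw [mem_insert, not_or]; exact ⟨hvu, hvS⟩
    · intro h; exact hvT (mem_of_mem_erase (mem_of_mem_erase h))
    · rw [disjoint_left]
      intro x hx hx'
      rw [mem_insert] at hx
      rw [mem_erase, mem_erase] at hx'
      rcases hx with rfl | hx
      · exact hx'.2.1 rfl
      · exact disjoint_left.1 hST hx hx'.2.2
    · rw [card_erase_of_mem hw, hTe]; omega
    · intro x hx
      rw [mem_insert] at hx
      rcases hx with rfl | hx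
      · exact mem_insert_self _ _
      · exact mem_insert_of_mem (hSM x hx)
    · intro x hx
      rw [mem_erase, mem_erase] at hx
      refine ⟨?_, ?_⟩
      · rw [mem_insert, not_or]
        refine ⟨?_, (hT x hx.2.2).1⟩
        rw [Sym2.eq_iff]
        rintro (h | h)
        · exact hx.2.1 h.2
        · exact hvu h.1
      · rw [mem_insert, not_or]
        refine ⟨?_, (hT x hx.2.2).2⟩
        intro h
        exact hx.1 (hwf x (mem_erase.2 hx.2) h)
    · have hsub : insert u S ∪ (T.erase u).erase w ⊆ S ∪ T := by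
        intro x hx
        rw [mem_union, mem_insert, mem_erase, mem_erase] at hx
        rw [mem_union]
        rcases hx with (rfl | hx) | hx
        · exact Or.inr huT
        · exact Or.inl hx
        · exact Or.inr hx.2.2
      intro x hx y hy hxy
      rw [mem_insert, not_or]
      refine ⟨?_, hMM x (hsub hx) y (hsub hy) hxy⟩
      have hvx : v ≠ x := by
        rintro rfl
        have := hsub hx
        rw [mem_union] at this
        exact this.elim hvS hvT
      have hvy : v ≠ y := by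
        rintro rfl
        have := hsub hy
        rw [mem_union] at this
        exact this.elim hvS hvT
      rw [Sym2.eq_iff]
      rintro (h | h)
      · exact hvx h.1.symm
      · exact hvy h.2.symm
    · intro M' B' S' a1 a2 a3 a4 a5 a6 a7
      refine hfin M' B' S' ((subset_insert _ _).trans a1) ((subset_insert _ _).trans a2) ?_ ?_ a5 a6
        (a7.trans (by omega))
      · intro x hx
        have := a3 hx
        rw [mem_union, mem_insert, mem_erase, mem_erase] at this
        rw [mem_union]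
        rcases this with (rfl | hx) | hx
        · exact Or.inr huT
        · exact Or.inl hx
        · exact Or.inr hx.2.2
      · rw [a4, card_insert_of_notMem huS]; ring

/-- The situation between two hubs: `K` are the hubs, `U` their common neighbourhood. -/
structure St (K U : Finset ℕ) (M B : Finset (Sym2 ℕ)) : Prop where
  disj : Disjoint K U
  KK : ∀ x ∈ K, ∀ y ∈ K, x ≠ y → s(x, y) ∈ M
  KU : ∀ x ∈ K, ∀ y ∈ U, s(x, y) ∈ M
  UU : ∀ x ∈ U, ∀ y ∈ U, x ≠ y → s(x, y) ∉ M
  eB : EE B U U ≤ 6 * U.card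

lemma EE_mono (B : Finset (Sym2 ℕ)) {X X' Y Y' : Finset ℕ} (h : X ⊆ X') (h' : Y ⊆ Y') :
    EE B X Y ≤ EE B X' Y' := by
  unfold EE dg
  calc ∑ x ∈ X, ∑ y ∈ Y, bb B x y ≤ ∑ x ∈ X, ∑ y ∈ Y', bb B x y :=
        sum_le_sum fun x _ => sum_le_sum_of_subset h'
    _ ≤ _ := sum_le_sum_of_subset h

/-- The next hub. -/
theorem hub {goal : Finset (Sym2 ℕ) → Prop} {m s' : ℕ} (hs : 11 ≤ s') {K U : Finset ℕ}
    {M B : Finset (Sym2 ℕ)} (hSt : St K U M B) (hU : U.card = 2 * s' + 7)
    (hfin : ∀ (K' U' : Finset ℕ) (M' B' : Finset (Sym2 ℕ)), St K' U' M' B' →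
      K'.card = K.card + 1 → U'.card = s' → Win goal m M' B') : Win goal (m + s') M B := by
  obtain ⟨v, hvU, hv⟩ : ∃ v ∈ U, dg B v U ≤ 6 := by
    by_contra hcon
    push Not at hcon
    have h1 : ∑ v ∈ U, 7 ≤ ∑ v ∈ U, dg B v U := sum_le_sum fun v hv => hcon v hv
    rw [sum_const, smul_eq_mul] at h1
    have h2 := hSt.eB
    unfold EE at h2
    omega
  set T := (U.erase v).filter (fun x => s(v, x) ∉ B) with hT
  have hTU : T ⊆ U.erase v := filter_subset _ _
  have hTc : 2 * s' ≤ T.card := by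
    have h1 : T.card + ((U.erase v).filter (fun x => ¬ s(v, x) ∉ B)).card = (U.erase v).card :=
      card_filter_add_card_filter_not (s := U.erase v) (fun x => s(v, x) ∉ B)
    rw [card_erase_of_mem hvU] at h1
    have h2 : ((U.erase v).filter (fun x => ¬ s(v, x) ∉ B)).card ≤ dg B v U := by
      unfold dg bb
      rw [sum_boole, Nat.cast_id]
      apply card_le_card
      intro x hx
      rw [mem_filter, mem_erase, not_not] at hx
      rw [mem_filter]
      exact ⟨hx.1.2, hx.1.1.symm, hx.2⟩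
    omega
  refine rounds v s' M B ∅ T (6 * U.card) (notMem_empty _)
    (fun h => notMem_erase v U (hTU h)) (disjoint_empty_left _) hTc (by simp) ?_ ?_ ?_ ?_
  · intro x hx
    rw [hT, mem_filter, mem_erase] at hx
    exact ⟨hSt.UU v hvU x hx.1.2 (Ne.symm hx.1.1), hx.2⟩
  · intro x hx y hy hxy
    rw [empty_union] at hx hy
    exact hSt.UU x (mem_of_mem_erase (hTU hx)) y (mem_of_mem_erase (hTU hy)) hxy
  · have h1 : Ph B ∅ T = EE B T T := by
      unfold Ph EE; simp
    rw [h1]
    have h2 : T ⊆ U := hTU.trans (erase_subset _ _)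
    exact (EE_mono B h2 h2).trans hSt.eB
  · intro M' B' S' a1 a2 a3 a4 a5 a6 a7
    rw [empty_union] at a3
    rw [card_empty, zero_add] at a4
    have hS'U : S' ⊆ U.erase v := a3.trans hTU
    have hvK : v ∉ K := disjoint_right.1 hSt.disj hvU
    refine hfin (insert v K) S' M' B' ⟨?_, ?_, ?_, a6, ?_⟩ (card_insert_of_notMem hvK) a4
    · rw [disjoint_left]
      intro x hx hx'
      rw [mem_insert] at hx
      rcases hx with rfl | hx
      · exact notMem_erase x U (hS'U hx')
      · exact disjoint_left.1 hSt.disj hx (mem_of_mem_erase (hS'U hx'))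
    · intro x hx y hy hxy
      rw [mem_insert] at hx hy
      rcases hx with rfl | hx <;> rcases hy with rfl | hy
      · exact absurd rfl hxy
      · rw [Sym2.eq_swap]
        exact a1 (hSt.KU y hy x hvU)
      · exact a1 (hSt.KU x hx y hvU)
      · exact a1 (hSt.KK x hx y hy hxy)
    · intro x hx y hy
      rw [mem_insert] at hx
      rcases hx with rfl | hx
      · exact a5 y hy
      · exact a1 (hSt.KU x hx y (mem_of_mem_erase (hS'U hy)))
    · omega

/-- The number of candidates needed for `a` hubs. -/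
def gg (X : ℕ) : ℕ → ℕ
  | 0 => X
  | a + 1 => 2 * gg X a + 7

lemma gg_eq (X a : ℕ) : gg X a + 7 = 2 ^ a * (X + 7) := by
  induction a with
  | zero => simp [gg]
  | succ a ih => rw [pow_succ, gg]; nlinarith

lemma gg_ge (X a : ℕ) : X ≤ gg X a := by
  induction a with
  | zero => exact le_rfl
  | succ a ih => rw [gg]; omega

/-- The hub phase: `a` hubs. -/
theorem hubs {goal : Finset (Sym2 ℕ) → Prop} {m X : ℕ} (hX : 11 ≤ X) : ∀ (a : ℕ)
    (K U : Finset ℕ) (M B : Finset (Sym2 ℕ)), St K U M B → U.card = gg X a →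
    (∀ (K' U' : Finset ℕ) (M' B' : Finset (Sym2 ℕ)), St K' U' M' B' →
      K'.card = K.card + a → U'.card = X → Win goal m M' B') → Win goal (m + gg X a) M B := by
  intro a
  induction a with
  | zero =>
    intro K U M B hSt hU hfin
    exact (hfin K U M B hSt (by simp) hU).mono (by omega)
  | succ a ih =>
    intro K U M B hSt hU hfin
    have h1 : 11 ≤ gg X a := hX.trans (gg_ge X a)
    have h2 : Win goal ((m + gg X a) + gg X a) M B := by
      refine hub h1 hSt (by rw [hU]; rfl) ?_
      intro K' U' M' B' hSt' hK' hU'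
      refine ih K' U' M' B' hSt' hU' ?_
      intro K'' U'' M'' B'' b1 b2 b3
      exact hfin K'' U'' M'' B'' b1 (by omega) b3
    refine h2.mono ?_
    rw [gg]; omega

end Pool.Agent.Y825.CG
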