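import Mathlib
import Pool.Agent.Y825.CG.Win
import Pool.Agent.Helper340.MB.Asym

set_option autoImplicit false

/-!
A forced win on a finite board inside the infinite board.
-/

namespace Pool.Agent.Y825.CG

open Finset Pool.Agent.Helper340.MB

variable {N : ℕ}

/-- Playing a finite clique game inside the infinite board. `ι` is the embedding of the vertices. -/
theorem win_of_forces (ι : Fin N ↪ ℕ) {goal' : Finset (Sym2 (Fin N)) → Prop}
    {goal : Finset (Sym2 ℕ) → Prop} (M₀ : Finset (Sym2 ℕ))
    (hgoal : ∀ M', goal' M' → ∀ M : Finset (Sym2 ℕ), M₀ ⊆ M → (∀ z ∈ M', z.map ι ∈ M) → goal M)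
    {M' B' : Finset (Sym2 (Fin N))} (hF : Forces 1 1 (edges N) goal' M' B') :
    ∀ M B : Finset (Sym2 ℕ), M₀ ⊆ M → (∀ z ∈ M', z.map ι ∈ M) →
      (∀ z ∈ edges N, z.map ι ∈ M → z ∈ M') → (∀ z ∈ edges N, z.map ι ∈ B → z ∈ B') →
      Win goal (edges N \ (M' ∪ B')).card M B := by
  have hinj : Function.Injective (Sym2.map ι) := Sym2.map.injective ι.injective
  induction hF with
  | done h0 hg =>
    intro M B h1 h2 h3 h4
    exact Win.done (hgoal _ hg M h1 h2)
  | @move M' B' hne Q hQ hc h ih =>
    intro M B h1 h2 h3 h4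
    have hcard : Q.card = 1 := by
      rw [hc]
      exact min_eq_left (card_pos.2 hne)
    obtain ⟨e, rfl⟩ := card_eq_one.1 hcard
    have he : e ∈ edges N \ (M' ∪ B') := hQ (mem_singleton_self e)
    rw [mem_sdiff, mem_union, not_or] at he
    obtain ⟨he1, he2, he3⟩ := he
    have hed : ¬ e.IsDiag := by
      unfold edges at he1
      exact (mem_filter.1 he1).2
    obtain ⟨n, hn⟩ : ∃ n, (edges N \ (M' ∪ B')).card = n + 1 :=
      ⟨(edges N \ (M' ∪ B')).card - 1, by have := card_pos.2 hne; omega⟩
    rw [hn]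
    have hmd : ∀ z : Sym2 (Fin N), (z.map ι).IsDiag ↔ z.IsDiag := by
      intro z
      induction z using Sym2.ind with
      | _ a b => simp
    refine Win.move (e.map ι) (by rw [hmd]; exact hed) (fun hc => he2 (h3 e he1 hc))
      (fun hc => he3 (h4 e he1 hc)) ?_
    intro f hf1 hf2 hf3 hf4
    -- the reply in the finite game
    obtain ⟨R, hR1, hR2, hR3⟩ : ∃ R ⊆ (edges N \ (M' ∪ B')) \ {e},
        R.card = min 1 ((edges N \ (M' ∪ B')) \ {e}).card ∧
        ∀ z ∈ edges N, z.map ι = f → z ∈ R ∪ B' := by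
      by_cases hz : ∃ z ∈ edges N, z.map ι = f ∧ z ∉ B'
      · obtain ⟨z, hz1, hz2, hz3⟩ := hz
        have hz4 : z ∈ (edges N \ (M' ∪ B')) \ {e} := by
          rw [mem_sdiff, mem_sdiff, mem_union, not_or, mem_singleton]
          refine ⟨⟨hz1, fun hc => hf2 (hz2 ▸ h2 z hc), hz3⟩, ?_⟩
          rintro rfl
          exact hf4 hz2.symm
        refine ⟨{z}, singleton_subset_iff.2 hz4, ?_, ?_⟩
        · rw [card_singleton]
          exact (min_eq_left (card_pos.2 ⟨z, hz4⟩)).symm
        · intro z' _ hz'
          have : z' = z := hinj (hz'.trans hz2.symm)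
          rw [this]
          exact mem_union_left _ (mem_singleton_self z)
      · push Not at hz
        obtain ⟨R, hR1, hR2⟩ := exists_subset_card_eq (s := (edges N \ (M' ∪ B')) \ {e})
          (n := min 1 ((edges N \ (M' ∪ B')) \ {e}).card) (min_le_right _ _)
        exact ⟨R, hR1, hR2, fun z hz1 hz2 => mem_union_right _ (hz z hz1 hz2)⟩
    have hle : (edges N \ ((M' ∪ {e}) ∪ (B' ∪ R))).card ≤ n := by
      have hlt : (edges N \ ((M' ∪ {e}) ∪ (B' ∪ R))).card < (edges N \ (M' ∪ B')).card := by
        apply card_lt_card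
        refine ⟨?_, ?_⟩
        · intro t ht
          simp only [mem_sdiff, mem_union, not_or] at ht ⊢
          exact ⟨ht.1, ht.2.1.1, ht.2.2.1⟩
        · intro hcon
          have := hcon (show e ∈ edges N \ (M' ∪ B') by
            rw [mem_sdiff, mem_union, not_or]; exact ⟨he1, he2, he3⟩)
          simp at this
      omega
    refine (ih R hR1 hR2 (insert (e.map ι) M) (insert f B) (h1.trans (subset_insert _ _))
      ?_ ?_ ?_).mono hle
    · intro z hz
      rw [mem_union, mem_singleton] at hz
      rcases hz with hz | rfl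
      · exact mem_insert_of_mem (h2 z hz)
      · exact mem_insert_self _ _
    · intro z hz1 hz2
      rw [mem_insert] at hz2
      rw [mem_union, mem_singleton]
      rcases hz2 with hz2 | hz2
      · exact Or.inr (hinj hz2)
      · exact Or.inl (h3 z hz1 hz2)
    · intro z hz1 hz2
      rw [mem_insert] at hz2
      rcases hz2 with hz2 | hz2
      · have := hR3 z hz1 hz2
        rw [mem_union] at this ⊢
        exact this.symm
      · exact mem_union_left _ (h4 z hz1 hz2)

end Pool.Agent.Y825.CG
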