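import Mathlib
import Pool.Agent.Y825.CG.Phase1
import Pool.Agent.Y825.CG.Phase2

set_option autoImplicit false

/-!
Hubs and the finite clique game together.
-/

namespace Pool.Agent.Y825.CG

open Finset

/-- Greedy independent set. -/
lemma greedy (B : Finset (Sym2 ℕ)) (d : ℕ) : ∀ (n : ℕ) (Y : Finset ℕ), Y.card ≤ n →
    (∀ x ∈ Y, dg B x Y ≤ d) →
    ∃ I ⊆ Y, Y.card ≤ (d + 1) * I.card ∧ ∀ x ∈ I, ∀ y ∈ I, x ≠ y → s(x, y) ∉ B := by
  intro n
  induction n with
  | zero =>
    intro Y hY _
    have : Y = ∅ := card_eq_zero.1 (by omega)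
    subst this
    exact ⟨∅, Subset.rfl, by simp, by simp⟩
  | succ n ih =>
    intro Y hY hd
    rcases Y.eq_empty_or_nonempty with rfl | ⟨v, hv⟩
    · exact ⟨∅, Subset.rfl, by simp, by simp⟩
    set Y' := (Y.erase v).filter (fun x => s(v, x) ∉ B) with hY'
    have hsub : Y' ⊆ Y.erase v := filter_subset _ _
    have h1 : Y'.card + ((Y.erase v).filter (fun x => ¬ s(v, x) ∉ B)).card = (Y.erase v).card :=
      card_filter_add_card_filter_not (s := Y.erase v) (fun x => s(v, x) ∉ B)
    rw [card_erase_of_mem hv] at h1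
    have h2 : ((Y.erase v).filter (fun x => ¬ s(v, x) ∉ B)).card ≤ dg B v Y := by
      unfold dg bb
      rw [sum_boole, Nat.cast_id]
      apply card_le_card
      intro x hx
      rw [mem_filter, mem_erase, not_not] at hx
      rw [mem_filter]
      exact ⟨hx.1.2, hx.1.1.symm, hx.2⟩
    have h3 := hd v hv
    have h4 : 0 < Y.card := card_pos.2 ⟨v, hv⟩
    obtain ⟨I, hI1, hI2, hI3⟩ := ih Y' (by omega) (by
      intro x hx
      have hxY : x ∈ Y := mem_of_mem_erase (hsub hx)
      exact (sum_le_sum_of_subset (hsub.trans (erase_subset _ _))).trans (hd x hxY))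
    have hvI : v ∉ I := fun h => notMem_erase v Y (hsub (hI1 h))
    refine ⟨insert v I, ?_, ?_, ?_⟩
    · intro x hx
      rw [mem_insert] at hx
      rcases hx with rfl | hx
      · exact hv
      · exact mem_of_mem_erase (hsub (hI1 hx))
    · rw [card_insert_of_notMem hvI]
      have h5 : (d + 1) * (I.card + 1) = (d + 1) * I.card + d + 1 := by ring
      omega
    · intro x hx y hy hxy
      rw [mem_insert] at hx hy
      rcases hx with rfl | hx <;> rcases hy with rfl | hy
      · exact absurd rfl hxy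
      · have := hI1 hy
        rw [hY', mem_filter] at this
        exact this.2
      · have := hI1 hx
        rw [hY', mem_filter] at this
        rw [Sym2.eq_swap]
        exact this.2
      · exact hI3 x hx y hy hxy

lemma indep (B : Finset (Sym2 ℕ)) (N : ℕ) (U : Finset ℕ) (hU : U.card = 24 * N)
    (hB : EE B U U ≤ 6 * U.card) :
    ∃ I ⊆ U, I.card = N ∧ ∀ x ∈ I, ∀ y ∈ I, x ≠ y → s(x, y) ∉ B := by
  set Y := U.filter (fun x => dg B x U ≤ 11) with hY
  have h1 : Y.card + (U.filter (fun x => ¬ dg B x U ≤ 11)).card = U.card :=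
    card_filter_add_card_filter_not (s := U) (fun x => dg B x U ≤ 11)
  have h2 : (U.filter (fun x => ¬ dg B x U ≤ 11)).card * 12 ≤ EE B U U := by
    unfold EE
    calc (U.filter (fun x => ¬ dg B x U ≤ 11)).card * 12
        = ∑ x ∈ U.filter (fun x => ¬ dg B x U ≤ 11), 12 := by rw [sum_const, smul_eq_mul]
      _ ≤ ∑ x ∈ U.filter (fun x => ¬ dg B x U ≤ 11), dg B x U := by
          refine sum_le_sum fun x hx => ?_
          have := (mem_filter.1 hx).2
          omega
      _ ≤ _ := sum_le_sum_of_subset (filter_subset _ _)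
  obtain ⟨I, hI1, hI2, hI3⟩ := greedy B 11 Y.card Y le_rfl (by
    intro x hx
    rw [hY, mem_filter] at hx
    exact (sum_le_sum_of_subset (filter_subset _ _)).trans hx.2)
  obtain ⟨J, hJ1, hJ2⟩ := exists_subset_card_eq (s := I) (n := N) (by omega)
  exact ⟨J, (hJ1.trans hI1).trans (filter_subset _ _), hJ2,
    fun x hx y hy => hI3 x (hJ1 hx) y (hJ1 hy)⟩

open Pool.Agent.Helper340.MB

theorem win_main {N a q' : ℕ} (hN : 1 ≤ N)
    (hF : Forces 1 1 (edges N) (HasClique q') ∅ ∅) :
    Win (Cl (a + q')) (N ^ 2 + gg (24 * N) a) ∅ ∅ := by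
  refine hubs (X := 24 * N) (by omega) a ∅ (range (gg (24 * N) a)) ∅ ∅
    ⟨disjoint_empty_left _, by simp, by simp, by simp, ?_⟩ (card_range _) ?_
  · unfold EE dg bb
    simp
  · intro K U M B hSt hK hU
    rw [card_empty, zero_add] at hK
    obtain ⟨I, hIU, hI, hIB⟩ := indep B N U hU hSt.eB
    set ι : Fin N ↪ ℕ := (I.orderEmbOfFin hI).toEmbedding with hι
    have hιI : ∀ i, ι i ∈ I := fun i => I.orderEmbOfFin_mem hI i
    have hout : ∀ (Z : Finset (Sym2 ℕ)), (∀ x ∈ I, ∀ y ∈ I, x ≠ y → s(x, y) ∉ Z) →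
        ∀ z ∈ edges N, z.map ι ∈ Z → z ∈ (∅ : Finset (Sym2 (Fin N))) := by
      intro Z hZ z hz hzZ
      exfalso
      unfold edges at hz
      rw [mem_filter] at hz
      revert hz hzZ
      induction z using Sym2.ind with
      | _ x y =>
        intro hz hzZ
        rw [Sym2.map_mk] at hzZ
        refine hZ (ι x) (hιI x) (ι y) (hιI y) ?_ hzZ
        intro h
        exact hz.2 (by simpa using ι.injective h)
    have hwin := win_of_forces ι (goal := Cl (a + q')) M (by
      intro M' hM' M'' h1 h2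
      obtain ⟨S, hS, hSM⟩ := hM'
      refine ⟨K ∪ S.map ι, ?_, ?_⟩
      · rw [card_union_of_disjoint, hK, card_map, hS]
        rw [disjoint_left]
        intro x hx hx'
        rw [mem_map] at hx'
        obtain ⟨i, _, rfl⟩ := hx'
        exact disjoint_left.1 hSt.disj hx (hIU (hιI i))
      · intro u hu v hv huv
        rw [mem_union, mem_map] at hu hv
        rcases hu with hu | ⟨i, hi, rfl⟩ <;> rcases hv with hv | ⟨j, hj, rfl⟩
        · exact h1 (hSt.KK u hu v hv huv)
        · exact h1 (hSt.KU u hu _ (hIU (hιI j)))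
        · rw [Sym2.eq_swap]
          exact h1 (hSt.KU v hv _ (hIU (hιI i)))
        · have := h2 _ (hSM i hi j hj (fun h => huv (by rw [h])))
          rwa [Sym2.map_mk] at this) hF M B Subset.rfl (by simp)
      (hout M fun x hx y hy => hSt.UU x (hIU hx) y (hIU hy)) (hout B hIB)
    refine hwin.mono ?_
    have h5 := card_edges_le N
    have h6 : (edges N).card ≤ N ^ 2 := by exact_mod_cast h5
    simpa using h6

end Pool.Agent.Y825.CG
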