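import Mathlib
import Pool.Agent.Y825.CG.Final

set_option autoImplicit false

/-!
The choice of the parameters.
-/

namespace Pool.Agent.Y825.CG

open Finset Pool.Agent.Helper340.MB Pool.Agent.Helper679.CliqueGame

lemma logb_le {x : ℝ} (hx : 0 < x) : Real.logb 2 x ≤ 0.725 * x := by
  have h1 : Real.log (x / 2) ≤ x / 2 - 1 := Real.log_le_sub_one_of_pos (by positivity)
  rw [Real.log_div hx.ne' (by norm_num)] at h1
  have h2 := Real.log_two_gt_d9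
  have h3 := Real.log_two_lt_d9
  rw [Real.logb, div_le_iff₀ (by linarith)]
  nlinarith

lemma cc_one : Pool.Agent.Helper340.MB.cc 1 1 = 2 := by
  unfold Pool.Agent.Helper340.MB.cc; norm_num

/-- The main inequality for the parameters. -/
theorem upper : ∃ C : ℝ, 0 < C ∧ ∃ q₀ : ℕ, ∀ q : ℕ, q₀ ≤ q →
    ∃ m : ℕ, MakerWinsWithin q m ∧
      (m : ℝ) ≤ C * (q : ℝ) ^ (4 / 3 : ℝ) * 2 ^ (2 * (q : ℝ) / 3) := by
  obtain ⟨C₀, N₀, h⟩ := clique_forces 1 1 le_rfl le_rfl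
  rw [cc_one] at h
  obtain ⟨c, hc⟩ : ∃ c : ℕ, C₀ ≤ 2 * (c : ℝ) - 2 * Real.logb 2 ((c : ℝ) + 4) := by
    refine ⟨⌈2 * (|C₀| + 6)⌉₊, ?_⟩
    have h1 : 2 * (|C₀| + 6) ≤ (⌈2 * (|C₀| + 6)⌉₊ : ℝ) := Nat.le_ceil _
    have h2 := logb_le (x := (⌈2 * (|C₀| + 6)⌉₊ : ℝ) + 4) (by positivity)
    have h3 := le_abs_self C₀
    have h4 := abs_nonneg C₀
    linarith
  set P : ℝ := (2 : ℝ) ^ (c : ℝ) with hP
  have hP1 : 1 ≤ P := Real.one_le_rpow (by norm_num) (by positivity)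
  refine ⟨8 * P ^ 2 + 62 * P, by positivity, max N₀ 2, fun q hq => ?_⟩
  have hqN : N₀ ≤ q := (le_max_left _ _).trans hq
  have hq2 : 2 ≤ q := (le_max_right _ _).trans hq
  have hqr : (2 : ℝ) ≤ q := by exact_mod_cast hq2
  have hq0 : (0 : ℝ) < q := by linarith
  set l : ℝ := Real.logb 2 q with hl
  have h2l : (2 : ℝ) ^ l = q := Real.rpow_logb (by norm_num) (by norm_num) hq0
  have hl0 : 0 ≤ l := Real.logb_nonneg (by norm_num) (by linarith)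
  have hlq : l ≤ q := by have := logb_le hq0; rw [hl]; linarith
  set a : ℕ := ⌊(q : ℝ) / 3 + 2 / 3 * l⌋₊ with ha
  have ha1 : (a : ℝ) ≤ (q : ℝ) / 3 + 2 / 3 * l := Nat.floor_le (by positivity)
  have ha2 : (q : ℝ) / 3 + 2 / 3 * l < a + 1 := Nat.lt_floor_add_one _
  have haq : a ≤ q := by
    have : (a : ℝ) ≤ q := by linarith
    exact_mod_cast this
  obtain ⟨q', hq'⟩ : ∃ q', q = a + q' := ⟨q - a, by omega⟩
  have hq'r : (q : ℝ) = a + q' := by exact_mod_cast hq'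
  have hq'0 : (0 : ℝ) ≤ q' := by positivity
  set Z : ℝ := P * q * 2 ^ ((q' : ℝ) / 2) with hZ
  have hpow1 : (1 : ℝ) ≤ 2 ^ ((q' : ℝ) / 2) := Real.one_le_rpow (by norm_num) (by positivity)
  have hZq : (q : ℝ) ≤ Z := by
    have h1 : (1 : ℝ) * q * 1 ≤ P * q * 2 ^ ((q' : ℝ) / 2) := by gcongr
    linarith
  have hZ0 : 0 < Z := by linarith
  set N : ℕ := ⌈Z⌉₊ with hN
  have hN1 : Z ≤ N := Nat.le_ceil _
  have hN2 : (N : ℝ) < Z + 1 := Nat.ceil_lt_add_one hZ0.le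
  have hN3 : (N : ℝ) ≤ 2 * Z := by linarith
  have hNq : q ≤ N := by
    have : (q : ℝ) ≤ N := hZq.trans hN1
    exact_mod_cast this
  have hNpos : (0 : ℝ) < N := by linarith
  obtain ⟨-, hF⟩ := h N (hqN.trans hNq)
  -- the size of the clique
  have hlogZ : Real.logb 2 Z = c + l + q' / 2 := by
    rw [hZ, Real.logb_mul (by positivity) (by positivity), Real.logb_mul (by positivity) (by positivity),
      hP, Real.logb_rpow (by norm_num) (by norm_num), Real.logb_rpow (by norm_num) (by norm_num)]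
  have hL1 : c + l + q' / 2 ≤ Real.logb 2 N := by
    rw [← hlogZ]
    exact Real.logb_le_logb_of_le (by norm_num) hZ0 hN1
  have hL2 : Real.logb 2 N ≤ 1 + (c + l + q' / 2) := by
    rw [← hlogZ]
    have h1 : Real.logb 2 N ≤ Real.logb 2 (2 * Z) := Real.logb_le_logb_of_le (by norm_num) hNpos hN3
    rw [Real.logb_mul (by norm_num) hZ0.ne', Real.logb_self_eq_one (by norm_num)] at h1
    exact h1
  have hLpos : 0 < Real.logb 2 N := by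
    have : (0 : ℝ) ≤ c := by positivity
    have h1 : 1 ≤ l := by
      rw [hl, Real.le_logb_iff_rpow_le (by norm_num) hq0]
      simpa using hqr
    linarith
  have hL3 : Real.logb 2 (Real.logb 2 N) ≤ Real.logb 2 ((c : ℝ) + 4) + l := by
    rw [hl, ← Real.logb_mul (by positivity) hq0.ne']
    refine Real.logb_le_logb_of_le (by norm_num) hLpos (hL2.trans ?_)
    have : (0 : ℝ) ≤ c := by positivity
    nlinarith
  have hfl : q' ≤ ⌊2 * Real.logb 2 N - 2 * Real.logb 2 (Real.logb 2 N) - C₀⌋₊ := by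
    apply Nat.le_floor
    linarith
  have hF' : Forces 1 1 (edges N) (HasClique q') ∅ ∅ :=
    Forces.mono (fun M hM => HasClique.mono hfl hM) hF
  have hwin := win_main (a := a) (by omega) hF'
  rw [← hq'] at hwin
  refine ⟨_, makerWins_of_win hwin, ?_⟩
  have hg : (gg (24 * N) a : ℝ) ≤ 2 ^ a * (31 * N) := by
    have h1 := gg_eq (24 * N) a
    have h2 : gg (24 * N) a ≤ 2 ^ a * (31 * N) := by
      have h3 : 2 ^ a * (24 * N + 7) ≤ 2 ^ a * (31 * N) := Nat.mul_le_mul_left _ (by omega)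
      omega
    exact_mod_cast h2
  -- the two costs
  have hq'u : (q' : ℝ) ≤ 2 * q / 3 - 2 / 3 * l + 1 := by linarith
  have e1 : (2 : ℝ) ^ (q' : ℝ) ≤ 2 * (2 ^ (2 * (q : ℝ) / 3) * (q : ℝ) ^ (-(2 / 3 : ℝ))) := by
    calc (2 : ℝ) ^ (q' : ℝ) ≤ 2 ^ (2 * (q : ℝ) / 3 + l * (-(2 / 3)) + 1) :=
          Real.rpow_le_rpow_of_exponent_le (by norm_num) (by linarith)
      _ = 2 * (2 ^ (2 * (q : ℝ) / 3) * (q : ℝ) ^ (-(2 / 3 : ℝ))) := by
          rw [Real.rpow_add (by norm_num), Real.rpow_add (by norm_num),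
            Real.rpow_mul (by norm_num), h2l, Real.rpow_one]
          ring
  have e2 : (2 : ℝ) ^ ((q' : ℝ) / 2) * 2 ^ (a : ℝ) ≤ 2 ^ (2 * (q : ℝ) / 3) * (q : ℝ) ^ (1 / 3 : ℝ) := by
    rw [← Real.rpow_add (by norm_num)]
    calc (2 : ℝ) ^ ((q' : ℝ) / 2 + a) ≤ 2 ^ (2 * (q : ℝ) / 3 + l * (1 / 3)) :=
          Real.rpow_le_rpow_of_exponent_le (by norm_num) (by linarith)
      _ = _ := by
          rw [Real.rpow_add (by norm_num), Real.rpow_mul (by norm_num), h2l]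
  have e3 : (q : ℝ) ^ 2 * (q : ℝ) ^ (-(2 / 3 : ℝ)) = (q : ℝ) ^ (4 / 3 : ℝ) := by
    rw [← Real.rpow_natCast (q : ℝ) 2, ← Real.rpow_add hq0]
    norm_num
  have e4 : (q : ℝ) * (q : ℝ) ^ (1 / 3 : ℝ) = (q : ℝ) ^ (4 / 3 : ℝ) := by
    conv_lhs => rw [← Real.rpow_one (q : ℝ)]
    rw [← Real.rpow_mul hq0.le, ← Real.rpow_add hq0]
    norm_num
  have hsq : (2 ^ ((q' : ℝ) / 2) : ℝ) ^ 2 = 2 ^ (q' : ℝ) := by
    rw [← Real.rpow_natCast, ← Real.rpow_mul (by norm_num)]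
    congr 1
    push_cast
    ring
  have c1 : (N : ℝ) ^ 2 ≤ 8 * P ^ 2 * ((q : ℝ) ^ (4 / 3 : ℝ) * 2 ^ (2 * (q : ℝ) / 3)) := by
    calc (N : ℝ) ^ 2 ≤ (2 * Z) ^ 2 := by gcongr
      _ = 4 * P ^ 2 * (q : ℝ) ^ 2 * 2 ^ (q' : ℝ) := by rw [hZ, ← hsq]; ring
      _ ≤ 4 * P ^ 2 * (q : ℝ) ^ 2 * (2 * (2 ^ (2 * (q : ℝ) / 3) * (q : ℝ) ^ (-(2 / 3 : ℝ)))) := by
          gcongr
      _ = 8 * P ^ 2 * (((q : ℝ) ^ 2 * (q : ℝ) ^ (-(2 / 3 : ℝ))) * 2 ^ (2 * (q : ℝ) / 3)) := by ring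
      _ = _ := by rw [e3]
  have c2 : (2 : ℝ) ^ a * (31 * N) ≤ 62 * P * ((q : ℝ) ^ (4 / 3 : ℝ) * 2 ^ (2 * (q : ℝ) / 3)) := by
    calc (2 : ℝ) ^ a * (31 * N) ≤ 2 ^ a * (31 * (2 * Z)) := by gcongr
      _ = 62 * P * q * (2 ^ ((q' : ℝ) / 2) * 2 ^ (a : ℝ)) := by
          rw [hZ, Real.rpow_natCast]; ring
      _ ≤ 62 * P * q * (2 ^ (2 * (q : ℝ) / 3) * (q : ℝ) ^ (1 / 3 : ℝ)) := by gcongr
      _ = 62 * P * ((q * (q : ℝ) ^ (1 / 3 : ℝ)) * 2 ^ (2 * (q : ℝ) / 3)) := by ring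
      _ = _ := by rw [e4]
  push_cast
  calc (N : ℝ) ^ 2 + (gg (24 * N) a : ℝ) ≤ 8 * P ^ 2 * ((q : ℝ) ^ (4 / 3 : ℝ) * 2 ^ (2 * (q : ℝ) / 3)) +
        62 * P * ((q : ℝ) ^ (4 / 3 : ℝ) * 2 ^ (2 * (q : ℝ) / 3)) := add_le_add c1 (hg.trans c2)
    _ = _ := by ring

end Pool.Agent.Y825.CG
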